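import Pool.Agent.Helper93.Final

set_option autoImplicit false

/-!
# Every number not congruent to 2 mod 3 is reached from 1 by a path of length `O(log² m)`
-/

namespace Pool.Agent.Results.MP_241678_nt.ShortPaths

open Pool.Agent.Helper93

/-- `IsPathOfLength n a b`: there is a directed path of length `n` from `a` to `b` in the graph
with the edges `x → 3 x` and `2 x + 1 → x`. -/
def IsPathOfLength (n a b : ℕ) : Prop :=
  ∃ f : ℕ → ℕ, f 0 = a ∧ f n = b ∧ ∀ i < n, f (i + 1) = 3 * f i ∨ f i = 2 * f (i + 1) + 1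

private theorem snoc {n a b c : ℕ} (h : IsPathOfLength n a b) (hc : c = 3 * b ∨ b = 2 * c + 1) :
    IsPathOfLength (n + 1) a c := by
  obtain ⟨f, h0, hn, hf⟩ := h
  refine ⟨fun i => if i ≤ n then f i else c, ?_, ?_, ?_⟩
  · simp [h0]
  · simp
  · intro i hi
    rcases Nat.lt_or_ge i n with h | h
    · have h1 : i ≤ n := h.le
      have h2 : i + 1 ≤ n := h
      simp only [h1, h2, if_true]
      exact hf i h
    · have h1 : i = n := by omega
      subst h1
      simp only [le_refl, if_true, show ¬ (i + 1 ≤ i) by omega, if_false, hn]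
      exact hc

private theorem of_path {n K : ℕ} {y w : ℤ} (hp : Path n K y w) (hy : 0 < y) :
    ∀ l : ℕ, IsPathOfLength l 1 (2 * w - 1).toNat →
      IsPathOfLength (l + (n + K)) 1 (2 * y - 1).toNat := by
  induction hp with
  | refl y => intro l h; simpa using h
  | dbl hp ih =>
    rename_i n K y w
    intro l h
    have hw := hp.pos hy
    have h1 := ih hy (l + 1) (snoc h (by right; omega))
    rw [show l + (n + (K + 1)) = l + 1 + (n + K) by ring]
    exact h1
  | thd hp ih =>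
    rename_i n K y w
    intro l h
    have hw := hp.pos hy
    have h1 := ih hy (l + 1) (snoc h (by left; omega))
    rw [show l + (n + 1 + K) = l + 1 + (n + K) by ring]
    exact h1

/-- contraction by a fixed factor with few steps -/
private theorem descent (y : ℕ) (hy : 1000000 ≤ y) (hy3 : ¬ 3 ∣ y) :
    ∃ n K w : ℕ, Path n K (y : ℤ) (w : ℤ) ∧ 0 < w ∧ ¬ 3 ∣ w ∧ (w : ℝ) ≤ 0.952 * y ∧
      n ≤ 8 * Nat.log 3 y + 120 := by
  set k := Nat.log 3 y with hk
  have hk1 : 3 ^ k ≤ y := Nat.pow_log_le_self 3 (by omega)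
  have hk2 : y < 3 ^ (k + 1) := Nat.lt_pow_succ_log_self (by norm_num) y
  have hk12 : 12 ≤ k := by
    by_contra h
    have h1 : k + 1 ≤ 12 := by omega
    have h2 : 3 ^ (k + 1) ≤ 3 ^ 12 := Nat.pow_le_pow_right (by norm_num) h1
    have h3 : (3 : ℕ) ^ 12 = 531441 := by norm_num
    omega
  have hkk : ∀ m : ℕ, 12 ≤ m → 40000 * m ≤ 3 ^ m := by
    intro m hm
    induction m, hm using Nat.le_induction with
    | base => norm_num
    | succ m hm ih => rw [pow_succ]; omega
  have hky : 40000 * k ≤ y := (hkk k hk12).trans hk1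
  have hB : Big (8 * (k + 4) + 88) (k + 4) (y : ℤ) := by
    constructor
    · left
      have : 0 < y := by omega
      exact_mod_cast this
    · rw [abs_of_nonneg (by positivity)]
      have h1 : 3 ^ (k + 4 + 1) = 81 * 3 ^ (k + 1) := by rw [pow_succ, pow_add]; ring
      have h2 : 44 * (y + 4 * (8 * (k + 4) + 88 + 20)) < 3 ^ (k + 4 + 1) := by
        rw [h1]
        omega
      exact_mod_cast h2
  have hyint : ¬ (3 : ℤ) ∣ (y : ℤ) := by
    intro hd
    exact hy3 (by exact_mod_cast hd)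
  obtain ⟨n, K, w, hn1, hnJ, hp, hw3, hK, hW⟩ :=
    contraction (N := k + 4) (fun n _ => EE_all n) hyint hB
  have hw := hp.pos (by
    have : 0 < y := by omega
    exact_mod_cast this)
  obtain ⟨w', rfl⟩ : ∃ w' : ℕ, w = (w' : ℤ) := ⟨w.toNat, by omega⟩
  have hWn : 3 ^ n * w' ≤ 2 ^ K * (y + 4 * n) := by exact_mod_cast hW
  have e : 3 ^ n * (20 * w') ≤ 3 ^ n * (19 * (y + 4 * n)) := by
    calc 3 ^ n * (20 * w') = 20 * (3 ^ n * w') := by ring
      _ ≤ 20 * (2 ^ K * (y + 4 * n)) := Nat.mul_le_mul_left _ hWn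
      _ = (20 * 2 ^ K) * (y + 4 * n) := by ring
      _ ≤ (19 * 3 ^ n) * (y + 4 * n) := Nat.mul_le_mul_right _ hK
      _ = 3 ^ n * (19 * (y + 4 * n)) := by ring
  have h20 := Nat.le_of_mul_le_mul_left e (by positivity)
  refine ⟨n, K, w', hp, by omega, ?_, ?_, by omega⟩
  · intro hd
    exact hw3 (by exact_mod_cast hd)
  · have h21 : 1000 * w' ≤ 952 * y := by omega
    have h22 : (1000 : ℝ) * w' ≤ 952 * y := by exact_mod_cast h21
    linarith

/-- paths to 1 with few steps -/
private theorem few_steps : ∃ C : ℝ, 0 ≤ C ∧ ∀ y : ℕ, 0 < y → ¬ 3 ∣ y →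
    ∃ n K : ℕ, Path n K (y : ℤ) 1 ∧ (n : ℝ) ≤ C + 200 * Real.log y ^ 2 := by
  classical
  have h0 : ∀ y : ℕ, ∃ n : ℕ, 0 < y → ¬ 3 ∣ y → ∃ K : ℕ, Path n K (y : ℤ) 1 := by
    intro y
    by_cases h : 0 < y ∧ ¬ 3 ∣ y
    · obtain ⟨n, K, hp⟩ := to_one y h.1 h.2
      exact ⟨n, fun _ _ => ⟨K, hp⟩⟩
    · exact ⟨0, fun h1 h2 => absurd ⟨h1, h2⟩ h⟩
  choose N hN using h0
  refine ⟨((Finset.range 1000000).sup N : ℕ), Nat.cast_nonneg _, ?_⟩
  intro y
  induction y using Nat.strong_induction_on with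
  | _ y ih =>
    intro hy hy3
    rcases Nat.lt_or_ge y 1000000 with h | h
    · obtain ⟨K, hp⟩ := hN y hy hy3
      refine ⟨N y, K, hp, ?_⟩
      have h1 : N y ≤ (Finset.range 1000000).sup N := Finset.le_sup (Finset.mem_range.2 h)
      have h2 : (N y : ℝ) ≤ ((Finset.range 1000000).sup N : ℕ) := by exact_mod_cast h1
      have h3 : 0 ≤ 200 * Real.log y ^ 2 := by positivity
      linarith
    · obtain ⟨n, K, w, hp, hw0, hw3, hwy, hn⟩ := descent y h hy3
      have hy0 : (0 : ℝ) < y := by exact_mod_cast hy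
      have hwR : (0 : ℝ) < w := by exact_mod_cast hw0
      have hlt : w < y := by
        have : (w : ℝ) < y := by linarith
        exact_mod_cast this
      obtain ⟨m, L, hp2, hm⟩ := ih w hlt hw0 hw3
      refine ⟨n + m, K + L, hp.trans hp2, ?_⟩
      have hlw : 0 ≤ Real.log w := Real.log_natCast_nonneg w
      have h1 : Real.log w ≤ Real.log y - 0.048 := by
        have e1 : Real.log w ≤ Real.log (0.952 * y) := Real.log_le_log hwR hwy
        rw [Real.log_mul (by norm_num) hy0.ne'] at e1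
        have e2 : Real.log 0.952 ≤ 0.952 - 1 := Real.log_le_sub_one_of_pos (by norm_num)
        linarith
      have h2 : Real.log w ^ 2 ≤ (Real.log y - 0.048) ^ 2 := pow_le_pow_left₀ hlw h1 2
      have hk1 : (Nat.log 3 y : ℝ) ≤ Real.log y := by
        have e1 : 3 ^ Nat.log 3 y ≤ y := Nat.pow_log_le_self 3 (by omega)
        have e2 : ((3 : ℝ) ^ Nat.log 3 y) ≤ y := by exact_mod_cast e1
        have e3 := Real.log_le_log (by positivity) e2
        rw [Real.log_pow] at e3
        have e4 : (1 : ℝ) ≤ Real.log 3 := by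
          rw [Real.le_log_iff_exp_le (by norm_num)]
          linarith [Real.exp_one_lt_d9]
        have e5 : (0 : ℝ) ≤ Nat.log 3 y := Nat.cast_nonneg _
        nlinarith only [e3, e4, e5]
      have hly : 12 ≤ Real.log y := by
        have e1 : (12 : ℝ) ≤ (Nat.log 3 y : ℝ) := by
          have : Nat.log 3 1000000 ≤ Nat.log 3 y := Nat.log_mono_right h
          have h3 : 12 ≤ Nat.log 3 1000000 :=
            Nat.le_log_of_pow_le (by norm_num) (by norm_num)
          exact_mod_cast h3.trans this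
        linarith
      have hn' : (n : ℝ) ≤ 8 * (Nat.log 3 y : ℝ) + 120 := by exact_mod_cast hn
      push_cast
      nlinarith only [hm, h2, hk1, hly, hn']

/-- **Theorem.** In the graph with the edges `x → 3 x` and `2 x + 1 → x`, a number `m` is reachable
from `1` if and only if `m` is not congruent to `2` modulo `3`, and in this case there is a path of
length at most `C (1 + log (m + 1))²`, with a constant `C` independent of `m`. -/
theorem result : ∃ C : ℝ, ∀ m : ℕ,
    ((∃ n, IsPathOfLength n 1 m) ↔ m % 3 ≠ 2) ∧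
    (m % 3 ≠ 2 → ∃ n : ℕ, IsPathOfLength n 1 m ∧
      (n : ℝ) ≤ C * (1 + Real.log (m + 1)) ^ 2) := by
  obtain ⟨C, hC0, hC⟩ := few_steps
  have key : ∀ u : ℕ, 0 < u → ¬ 3 ∣ u → ∃ l : ℕ, IsPathOfLength l 1 (2 * u - 1) ∧
      (l : ℝ) ≤ 3 * (C + 200 * Real.log u ^ 2) := by
    intro u hu hu3
    obtain ⟨n, K, hp, hn⟩ := hC u hu hu3
    have hpos : (0 : ℤ) < (u : ℤ) := by exact_mod_cast hu
    have h1 := of_path hp hpos 0 ⟨fun _ => 1, rfl, by norm_num, fun i hi => absurd hi (by omega)⟩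
    have e : (2 * (u : ℤ) - 1).toNat = 2 * u - 1 := by omega
    rw [e, Nat.zero_add] at h1
    refine ⟨n + K, h1, ?_⟩
    have hK : K ≤ 2 * n := by
      have h2 := hp.lower
      rw [mul_one] at h2
      have h3 : 2 ^ K * u ≤ 3 ^ n := by exact_mod_cast h2
      have h4 : 2 ^ K ≤ 2 ^ (2 * n) := by
        calc 2 ^ K ≤ 2 ^ K * u := Nat.le_mul_of_pos_right _ hu
          _ ≤ 3 ^ n := h3
          _ ≤ 4 ^ n := Nat.pow_le_pow_left (by norm_num) n
          _ = 2 ^ (2 * n) := by rw [pow_mul]; norm_num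
      exact (Nat.pow_le_pow_iff_right (by norm_num)).1 h4
    have hK' : (K : ℝ) ≤ 2 * n := by exact_mod_cast hK
    push_cast
    linarith
  have hex : ∀ m : ℕ, m % 3 ≠ 2 → ∃ n : ℕ, IsPathOfLength n 1 m ∧
      (n : ℝ) ≤ (3 * C + 601) * (1 + Real.log (m + 1)) ^ 2 := by
    intro m hm
    have hfin : ∀ u : ℕ, 0 < u → u ≤ m + 1 → ∀ l : ℕ, (l : ℝ) ≤ 3 * (C + 200 * Real.log u ^ 2) →
        ((l + 1 : ℕ) : ℝ) ≤ (3 * C + 601) * (1 + Real.log (m + 1)) ^ 2 := by
      intro u hu hum l hl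
      have h1 : Real.log u ≤ Real.log (m + 1) := by
        refine Real.log_le_log (by exact_mod_cast hu) ?_
        exact_mod_cast hum
      have h2 : 0 ≤ Real.log u := Real.log_natCast_nonneg u
      have h3 : Real.log u ^ 2 ≤ Real.log (m + 1) ^ 2 := pow_le_pow_left₀ h2 h1 2
      have h4 : 0 ≤ Real.log ((m : ℝ) + 1) := h2.trans h1
      push_cast
      nlinarith [mul_nonneg hC0 h4, mul_nonneg hC0 (sq_nonneg (Real.log ((m : ℝ) + 1))),
        sq_nonneg (Real.log ((m : ℝ) + 1))]
    rcases Nat.even_or_odd' m with ⟨k, hk | hk⟩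
    · obtain ⟨l, h1, h2⟩ := key (m + 1) (by omega) (by omega)
      exact ⟨l + 1, snoc h1 (by right; omega), hfin (m + 1) (by omega) le_rfl l h2⟩
    · obtain ⟨l, h1, h2⟩ := key (k + 1) (by omega) (by omega)
      have e : 2 * (k + 1) - 1 = m := by omega
      rw [e] at h1
      refine ⟨l, h1, ?_⟩
      have h3 := hfin (k + 1) (by omega) (by omega) l h2
      push_cast at h3
      linarith
  refine ⟨3 * C + 601, fun m => ⟨⟨?_, fun h => ?_⟩, hex m⟩⟩
  · rintro ⟨n, f, h0, hn, hf⟩
    have h1 : ∀ i ≤ n, f i % 3 ≠ 2 := by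
      intro i
      induction i with
      | zero => intro _; rw [h0]; norm_num
      | succ i ih =>
        intro hi
        have h2 := ih (by omega)
        rcases hf i (by omega) with h | h <;> omega
    rw [← hn]
    exact h1 n le_rfl
  · obtain ⟨n, h1, -⟩ := hex m h
    exact ⟨n, h1⟩

end Pool.Agent.Results.MP_241678_nt.ShortPaths
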